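import Pool.Agent.WSF.Final

/-!
# Weak and split F-regularity agree for graded rings over a discrete valuation ring with
Gorenstein generic fibre
-/

namespace Pool.Agent.WSU.Replaced.GradedOverDVR

universe u v

open MvPolynomial Pool.Agent.WSF

theorem result (p : ℕ) [Fact p.Prime] (V : Type u) (R : Type v) [CommRing V] [IsDomain V]
    [IsDiscreteValuationRing V] [CommRing R] [IsDomain R] [CharP R p] [Algebra V R] (m : ℕ)
    [Algebra (MvPolynomial (Fin m) V) R] [IsScalarTower V (MvPolynomial (Fin m) V) R]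
    [Module.Finite (MvPolynomial (Fin m) V) R]
    (z : V) (hz : Irreducible z)
    (hinj : Function.Injective (algebraMap (MvPolynomial (Fin m) V) R))
    (hF : FFinite p R)
    (𝒜 : ℕ → Submodule V R) [GradedAlgebra 𝒜] (d : Fin m → ℕ)
    (h0 : ∀ x ∈ 𝒜 0, ∃ v : V, algebraMap V R v = x) (hd : ∀ i, 0 < d i)
    (hX : ∀ i, algebraMap (MvPolynomial (Fin m) V) R (X i) ∈ 𝒜 (d i))
    (Φ : R →ₗ[MvPolynomial (Fin m) V] MvPolynomial (Fin m) V) (ν k : ℕ)
    (hT : TraceGen 𝒜 d z Φ ν k) :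
    ∃ _h : (mm 𝒜 z).IsPrime, List.TFAE [WeaklyFRegular p (Localization.AtPrime (mm 𝒜 z)),
      WeaklyFRegular p R, SplitFRegular p R] :=
  final p V R m z hz hinj hF 𝒜 d h0 hd hX Φ ν k hT

end Pool.Agent.WSU.Replaced.GradedOverDVR
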