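import Pool.Agent.WSP.Final

/-!
# Weak and split F-regularity agree if the punctured spectrum has finite F-representation type

`A` is a regular local ring with regular parameters `X_1, ..., X_d`, `R` an `F`-finite local domain of
characteristic `p`, finite over `A ⊆ R` (by Cohen's theorem every complete local domain of
characteristic `p` is finite over such an `A`, and the `X_k` may be any system of parameters of
`R`). Suppose that for every `k` the ring `R[1/X_k]` has finite F-representation type, or is F-stable
(for example regular), or a power of `X_k` is in the trace ideal of `Hom_A(R, A)` (if `R` is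
Cohen-Macaulay this means that `R[1/X_k]` is Gorenstein). Then `R` is weakly F-regular iff it is split
F-regular.

Architect helper5; modules by helper1, helper7, helper14, helper18, helper22, helper32, helper36,
helper47, helper48, helper49, helper50, helper55, helper68, helper74, helper81, helper83, helper86,
helper90; definitions and modules of the projects WSF and WSG (helper31, helper5 and others).
-/

set_option autoImplicit false

namespace Pool.Agent.WSU.Replaced.PuncturedFFRT

universe u v

open Pool.Agent.WSF Pool.Agent.WSG Pool.Agent.WSP

theorem result (p : ℕ) [Fact p.Prime] (A : Type u) (R : Type v) [CommRing A]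
    [IsRegularLocalRing A] [CommRing R] [IsDomain R] [IsLocalRing R] [CharP R p] [Algebra A R]
    [Module.Finite A R] (hinj : Function.Injective (algebraMap A R)) (d : ℕ) (X : Fin d → A)
    (hX : Ideal.span (Set.range X) = IsLocalRing.maximalIdeal A)
    (hd : (d : WithBot ℕ∞) = ringKrullDim A) (hF : FFinite p R)
    (h : ∀ k : Fin d, HasFFRT p (Localization.Away (algebraMap A R (X k))) ∨
      StabF p (Localization.Away (algebraMap A R (X k))) ∨
      ∃ N : ℕ, TrOm A R (algebraMap A R (X k) ^ N)) :
    WeaklyFRegular p R ↔ SplitFRegular p R :=
  final A R p d X hX hd hinj hF h

end Pool.Agent.WSU.Replaced.PuncturedFFRT
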